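import Pool.Agent.Lib.Rfa.CubicM

/-!
Retracts of rank at most two, and retractions of degree at most three, of free associative algebras.
-/

namespace Pool.Agent.Results.MP_b7cb8e_al.CubicRankTwo

open Polynomial

/-- the span of the words in the elements `g x` whose length is at most `n` -/
def DegreeLE (k : Type*) [Field k] {F X : Type*} [Ring F] [Algebra k F] (g : X → F) (n : ℕ) :
    Submodule k F :=
  Submodule.span k {f | ∃ l : List X, l.length ≤ n ∧ (l.map g).prod = f}

/-- `R` has rank at most two: for some augmentation of `R`, with kernel `m`, the space `m / m ^ 2`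
has dimension at most two, that is, `R` is spanned by `1`, two elements and `m ^ 2` -/
def RankLETwo {k F : Type*} [Field k] [Ring F] [Algebra k F] (R : Subalgebra k F) : Prop :=
  ∃ (ε : R →ₐ[k] k) (a b : R), ∀ f : R, ∃ r s t : k,
    f - algebraMap k R r - s • a - t • b ∈
      Submodule.span k {h : R | ∃ y z : R, ε y = 0 ∧ ε z = 0 ∧ h = y * z}

/-- Let `F` be a free associative algebra over a field with free generators `g x`, `x ∈ X`, and let
`π` be an idempotent endomorphism of `F`.  Suppose first that all `π (g x)` have degree at most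
three.  Then the retract `π(F)` is free if it has rank at most two (any `X`); if `X = Fin n` is
finite, then `π(F)` is free for `n ≤ 3`, and `π` kills or fixes some polynomial of degree one for
`n > 0`.  In any degree: a retract of rank at most two of a free algebra of finite rank which
contains a nonconstant polynomial in a primitive element (a member `g i` of some free generating
family) is free. -/
theorem result {k : Type*} [Field k] {F : Type*} [Ring F] [Algebra k F]
    (π : F →ₐ[k] F) (hπ : ∀ f, π (π f) = π f) :
    (∀ {X : Type*} (g : X → F), Function.Bijective (FreeAlgebra.lift k g) →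
      (∀ x, π (g x) ∈ DegreeLE k g 3) → RankLETwo π.range →
        ∃ m : ℕ, Nonempty (π.range ≃ₐ[k] FreeAlgebra k (Fin m))) ∧
    (∀ (n : ℕ) (g : Fin n → F), Function.Bijective (FreeAlgebra.lift k g) →
      ((∀ i, π (g i) ∈ DegreeLE k g 3) →
        (n ≤ 3 → ∃ m : ℕ, Nonempty (π.range ≃ₐ[k] FreeAlgebra k (Fin m))) ∧
        (0 < n → ∃ v ∈ DegreeLE k g 1, v ∉ (⊥ : Subalgebra k F) ∧ (π v = 0 ∨ π v = v))) ∧
      (RankLETwo π.range → ∀ (i : Fin n) (p : k[X]), 0 < p.natDegree →
        aeval (g i) p ∈ π.range →
          ∃ m : ℕ, Nonempty (π.range ≃ₐ[k] FreeAlgebra k (Fin m)))) := by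
  refine ⟨fun g hg h hR => Rfa.cubicFX g hg π hπ h hR, fun n g hg =>
    ⟨fun h => ⟨fun hn => Rfa.cubicF g hg π hπ h (Or.inl hn),
      fun hn => Rfa.fixkillF g hg π hπ h hn⟩,
    fun hR i p hp hpR => Rfa.primF g hg π hπ hR i p hp hpR⟩⟩

end Pool.Agent.Results.MP_b7cb8e_al.CubicRankTwo
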