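import Pool.Agent.Lib.Rfa.Words
import Pool.Agent.Lib.Rfa.Main

/-!
Retractions of free associative algebras of any rank whose values on the kernel of the linear part
are concentrated in a short range of degrees.
-/

namespace Pool.Agent.Results.MP_b7cb8e_al.DegreeRange

/-- the span of the words in the elements `g x` whose length lies in `S` -/
def Words (k : Type*) [Field k] {F X : Type*} [Ring F] [Algebra k F] (g : X → F) (S : Set ℕ) :
    Submodule k F :=
  Submodule.span k {f | ∃ l : List X, l.length ∈ S ∧ (l.map g).prod = f}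

/-- Let `g` be a free generating family of `F` and `π` an idempotent endomorphism of `F`.  Suppose
that all `π (g x)` have degree at most two, or that for some `m ≥ 2` all `π (g x)` are sums of a
linear form and words of length at least `m`, and every linear form `y` for which `π y` has no
linear part is a linear combination of elements `z` for which `π z` has all its degrees in one
interval `[a, a + m - 2]`.  Then the retract `π(F)` is free. -/
theorem result {k : Type*} [Field k] {F : Type*} [Ring F] [Algebra k F] {X : Type*} (g : X → F)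
    (hg : Function.Bijective (FreeAlgebra.lift k g)) (π : F →ₐ[k] F) (hπ : ∀ f, π (π f) = π f)
    (h : (∀ x, π (g x) ∈ Words k g {j | j ≤ 2}) ∨
      ∃ m, 2 ≤ m ∧ (∀ x, π (g x) ∈ Words k g {j | j = 1 ∨ m ≤ j}) ∧
        ∀ y ∈ Words k g {1}, π y ∈ Words k g {j | 2 ≤ j} →
          y ∈ Submodule.span k {z | ∃ a, π z ∈ Words k g (Set.Icc a (a + m - 2))}) :
    ∃ B : Set F, Nonempty (π.range ≃ₐ[k] FreeAlgebra k B) := by
  classical
  set σ : FreeAlgebra k X ≃ₐ[k] F := AlgEquiv.ofBijective _ hg with hσ
  have hσι : ∀ z, σ (FreeAlgebra.ι k z) = g z := fun z => by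
    show FreeAlgebra.lift k g (FreeAlgebra.ι k z) = g z
    simp
  have hσι' : ∀ z, σ.symm (g z) = FreeAlgebra.ι k z := fun z => by
    rw [← hσι, σ.symm_apply_apply]
  have hW : ∀ S f, f ∈ Words k g S → σ.symm f ∈ Rfa.Wd k (FreeAlgebra.ι k) S := by
    intro S f hf
    have h1 := Rfa.Wd_map σ.symm.toAlgHom g S (f := f) hf
    have h2 : (fun x => σ.symm.toAlgHom (g x)) = FreeAlgebra.ι k := funext hσι'
    rw [h2] at h1
    exact h1
  have hW' : ∀ S f, f ∈ Rfa.Wd k (FreeAlgebra.ι k : X → FreeAlgebra k X) S → σ f ∈ Words k g S := by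
    intro S f hf
    have h1 := Rfa.Wd_map σ.toAlgHom (FreeAlgebra.ι k) S (f := f) hf
    have h2 : (fun x => σ.toAlgHom (FreeAlgebra.ι k x)) = g := funext hσι
    rw [h2] at h1
    exact h1
  set π' : FreeAlgebra k X →ₐ[k] FreeAlgebra k X :=
    (σ.symm.toAlgHom.comp π).comp σ.toAlgHom with hπ'
  have hπ'σ : ∀ f, π' f = σ.symm (π (σ f)) := fun f => rfl
  have hσπ : ∀ f, σ (π' f) = π (σ f) := fun f => σ.apply_symm_apply _
  have hidem : ∀ f, π' (π' f) = π' f := fun f => σ.injective (by rw [hσπ, hσπ, hπ])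
  obtain ⟨B, φ, h1, h2⟩ := Rfa.windowW π' hidem (by
    rcases h with h | ⟨m, hm, ha, hb⟩
    · left
      intro x
      rw [hπ'σ, hσι]
      exact hW _ _ (h x)
    · right
      refine ⟨m, hm, fun x => ?_, fun y hy hy2 => ?_⟩
      · rw [hπ'σ, hσι]
        exact hW _ _ (ha x)
      · have h3 := hb (σ y) (hW' _ _ hy) (by
          rw [← hσπ]
          exact hW' _ _ hy2)
        have h4 : Submodule.span k {z | ∃ a, π z ∈ Words k g (Set.Icc a (a + m - 2))} ≤
            (Submodule.span k {z | ∃ a, π' z ∈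
              Rfa.Wd k (FreeAlgebra.ι k : X → FreeAlgebra k X) (Set.Icc a (a + m - 2))}).comap
              σ.symm.toAlgHom.toLinearMap := by
          refine Submodule.span_le.2 ?_
          rintro z ⟨a, hz⟩
          refine Submodule.subset_span ⟨a, ?_⟩
          show π' (σ.symm z) ∈
            Rfa.Wd k (FreeAlgebra.ι k : X → FreeAlgebra k X) (Set.Icc a (a + m - 2))
          rw [hπ'σ, σ.apply_symm_apply]
          exact hW _ _ hz
        have h5 := h4 h3
        have h6 : σ.symm.toAlgHom.toLinearMap (σ y) = y := σ.symm_apply_apply y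
        rw [Submodule.mem_comap, h6] at h5
        exact h5)
  have h3 : π'.range.map σ.toAlgHom = π.range := by
    ext f
    constructor
    · rintro ⟨_, ⟨a, rfl⟩, rfl⟩
      exact ⟨σ a, (hσπ a).symm⟩
    · rintro ⟨a, rfl⟩
      refine ⟨_, ⟨σ.symm a, rfl⟩, ?_⟩
      refine (hσπ _).trans ?_
      rw [AlgEquiv.apply_symm_apply]
      rfl
  have e1 : π'.range ≃ₐ[k] π.range := by
    rw [← h3]
    exact Subalgebra.equivMapOfInjective _ σ.toAlgHom σ.injective
  have e2 : FreeAlgebra k B ≃ₐ[k] π'.range := by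
    rw [← h2]
    exact AlgEquiv.ofInjective φ h1
  have e3 : B ≃ (σ '' B : Set F) := σ.toEquiv.image B
  exact ⟨σ '' B, ⟨(e1.symm.trans e2.symm).trans (Rfa.vmapE k e3)⟩⟩

end Pool.Agent.Results.MP_b7cb8e_al.DegreeRange
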