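import Pool.Agent.Lib.Prt.Fin

/-!
Retracts of free associative algebras that meet the subalgebra `k[v]` of a primitive element `v`.
-/

open Polynomial

namespace Pool.Agent.Results.MP_b7cb8e_al.PrimitiveRetract

/-- the subalgebra `R` is a retract of `F` -/
def IsRetract {k F : Type*} [CommRing k] [Ring F] [Algebra k F] (R : Subalgebra k F) : Prop :=
  ∃ π : F →ₐ[k] F, (∀ f, π f ∈ R) ∧ ∀ r ∈ R, π r = r

/-- `v` is a primitive element of the free algebra: the image of a variable under an automorphism -/
def IsPrimitive {k : Type*} [CommRing k] {n : ℕ} (v : FreeAlgebra k (Fin n)) : Prop :=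
  ∃ (σ : FreeAlgebra k (Fin n) ≃ₐ[k] FreeAlgebra k (Fin n)) (i : Fin n),
    σ (FreeAlgebra.ι k i) = v

theorem free_of_adjoin {k F : Type*} [Field k] [Ring F] [Algebra k F] (R : Subalgebra k F) {m : ℕ}
    (g : Fin m → F) (hR : R = Algebra.adjoin k (Set.range g))
    (hg : Function.Injective (FreeAlgebra.lift k g)) : Nonempty (R ≃ₐ[k] FreeAlgebra k (Fin m)) := by
  rw [Algebra.adjoin_range_eq_range_freeAlgebra_lift] at hR
  subst hR
  exact ⟨(AlgEquiv.ofInjective _ hg).symm⟩

/-- Let `R` be a retract of the free algebra `F` of rank `n` over a field `k`, and suppose that `R`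
contains a nonconstant polynomial in a primitive element `v` of `F`.  If `n ≤ 3`, or if `R` is
commutative modulo the ideal generated by `v`, then `R` is free: it contains `v`, and it is
`F`, or `k[v]`, or freely generated by `v` and one further element. -/
theorem result {k : Type*} [Field k] {n : ℕ} (R : Subalgebra k (FreeAlgebra k (Fin n)))
    (hR : IsRetract R) (v : FreeAlgebra k (Fin n)) (hv : IsPrimitive v)
    (p : k[X]) (hp : 0 < p.natDegree) (hpR : aeval v p ∈ R)
    (h : n ≤ 3 ∨ ∀ a ∈ R, ∀ b ∈ R, a * b - b * a ∈ TwoSidedIdeal.span {v}) :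
    (∃ m : ℕ, Nonempty (R ≃ₐ[k] FreeAlgebra k (Fin m))) ∧ v ∈ R ∧
      (R = ⊤ ∨ R = Algebra.adjoin k {v} ∨ ∃ y ∈ R, R = Algebra.adjoin k {v, y} ∧
        Function.Injective (FreeAlgebra.lift k ![v, y])) := by
  obtain ⟨σ, i, hσ⟩ := hv
  cases n with
  | zero => exact i.elim0
  | succ m =>
    obtain ⟨π, hπR, hπ⟩ := hR
    have hτ : (σ.symm.trans (Prt.toW k i)) v = Prt.z := by
      rw [← hσ]
      simp [Prt.toW_ι]
    obtain ⟨h1, h2⟩ := Prt.fin_main R π hπR hπ (σ.symm.trans (Prt.toW k i)) v hτ p hp hpR h
    refine ⟨?_, h1, h2⟩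
    rcases h2 with h2 | h2 | ⟨y, _, h2, h3⟩
    · subst h2
      exact ⟨m + 1, ⟨Subalgebra.topEquiv⟩⟩
    · refine ⟨1, free_of_adjoin R ![v] (by simpa using h2) ?_⟩
      have h4 : (FreeAlgebra.lift k ![v]) = (σ.symm.trans (Prt.toW k i)).symm.toAlgHom.comp
          (FreeAlgebra.lift k ![(Prt.z : Prt.W k (Fin m))]) := by
        apply FreeAlgebra.hom_ext
        funext j
        fin_cases j
        simp only [Function.comp_apply, FreeAlgebra.lift_ι_apply, AlgHom.comp_apply]
        exact ((AlgEquiv.symm_apply_eq _).2 hτ.symm).symm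
      rw [h4]
      exact (σ.symm.trans (Prt.toW k i)).symm.injective.comp Prt.free_one
    · refine ⟨2, free_of_adjoin R ![v, y] ?_ h3⟩
      rw [h2]
      have h5 : Set.range ![v, y] = {v, y} := by
        ext a
        simp only [Set.mem_range, Fin.exists_fin_two, Matrix.cons_val_zero, Matrix.cons_val_one,
          Set.mem_insert_iff, Set.mem_singleton_iff]
        constructor
        · rintro (h | h)
          · exact Or.inl h.symm
          · exact Or.inr h.symm
        · rintro (h | h)
          · exact Or.inl h.symm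
          · exact Or.inr h.symm
      rw [h5]

end Pool.Agent.Results.MP_b7cb8e_al.PrimitiveRetract
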