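import Pool.Agent.Lib.Rfa.ThreeRel
import Pool.Agent.Lib.Rfa.Window

/-!
Retracts of free associative algebras of any rank which are triangular with respect to a
well-ordering of all but a few of the free generators.
-/

namespace Pool.Agent.Results.MP_b7cb8e_al.TriangularRetract

/-- the family `b` freely generates the subalgebra `R` -/
def FreelyGenerates {k F B : Type*} [Field k] [Ring F] [Algebra k F] (R : Subalgebra k F)
    (b : B → F) : Prop :=
  Function.Injective (FreeAlgebra.lift k b) ∧ (FreeAlgebra.lift k b).range = R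

/-- Let `g` be a free generating family of `F`, indexed by `X₀ ⊕ X₁` with `X₁` well-ordered, and
let `π` be an idempotent endomorphism of `F` which preserves the subalgebra `A` generated by the
`g i`, `i ∈ X₀`, and maps each `g x`, `x ∈ X₁`, into the subalgebra generated by `A` and the
`g y`, `y ≤ x`.  If the image of `A` is free, then the image of `F` is free: every free generating
family of `π(A)` is extended to one of `π(F)` by the elements `π (g y)`, `y` in some subset of
`X₁`.  The image of `F` is free if `X₀` has at most two elements, or if it has three elements and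
the subalgebra generated by one or by two of the three `g i` is preserved. -/
theorem result {k : Type*} [Field k] {F : Type*} [Ring F] [Algebra k F] {X₀ X₁ : Type*}
    [LinearOrder X₁] [WellFoundedLT X₁] (g : X₀ ⊕ X₁ → F)
    (hg : FreelyGenerates (⊤ : Subalgebra k F) g)
    (π : F →ₐ[k] F) (hπ : ∀ f, π (π f) = π f)
    (h₀ : ∀ i, π (g (Sum.inl i)) ∈ Algebra.adjoin k (g '' Set.range Sum.inl))
    (h₁ : ∀ x, π (g (Sum.inr x)) ∈
      Algebra.adjoin k (g '' (Set.range Sum.inl ∪ Sum.inr '' Set.Iic x))) :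
    (∀ {B : Type*} (b : B → F),
      FreelyGenerates ((Algebra.adjoin k (g '' Set.range Sum.inl)).map π) b →
        ∃ Y : Set X₁, FreelyGenerates π.range
          (Sum.elim b (fun y : Y => π (g (Sum.inr (y : X₁)))))) ∧
    (Finite X₀ → Nat.card X₀ ≤ 2 → ∃ m ≤ 2, ∃ (b : Fin m → F) (Y : Set X₁),
      FreelyGenerates π.range (Sum.elim b (fun y : Y => π (g (Sum.inr (y : X₁)))))) ∧
    (∀ (e : Fin 3 ≃ X₀) (j : ℕ), 1 ≤ j → j ≤ 2 →
      (∀ i : Fin 3, (i : ℕ) < j → π (g (Sum.inl (e i))) ∈
        Algebra.adjoin k ((fun i => g (Sum.inl (e i))) '' {i : Fin 3 | (i : ℕ) < j})) →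
      ∃ m ≤ 3, ∃ (b : Fin m → F) (Y : Set X₁),
        FreelyGenerates π.range (Sum.elim b (fun y : Y => π (g (Sum.inr (y : X₁)))))) := by
  obtain ⟨hg1, hg2⟩ := hg
  refine ⟨fun b hb => Rfa.relativeF g hg1 hg2 π hπ h₀ h₁ b hb.1 hb.2, fun _ hcard => ?_,
    fun e j hj₁ hj₂ hj => ?_⟩
  · obtain ⟨m, hm, b, hb⟩ := Rfa.baseF g hg1 hg2 hcard π hπ h₀
    obtain ⟨Y, hY⟩ := Rfa.relativeF g hg1 hg2 π hπ h₀ h₁ b hb.1 hb.2
    exact ⟨m, hm, b, Y, hY⟩
  · set s : Fin 3 ⊕ X₁ ≃ X₀ ⊕ X₁ := e.sumCongr (Equiv.refl X₁) with hs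
    have hsl : ∀ i, s (Sum.inl i) = Sum.inl (e i) := fun i => rfl
    have hsr : ∀ x, s (Sum.inr x) = Sum.inr x := fun x => rfl
    have hlift : FreeAlgebra.lift k (fun z => g (s z))
        = (FreeAlgebra.lift k g).comp (Rfa.vmapE k s).toAlgHom := by
      apply FreeAlgebra.hom_ext
      funext z
      simp only [Function.comp_apply, FreeAlgebra.lift_ι_apply, AlgHom.comp_apply]
      show g (s z) = FreeAlgebra.lift k g (FreeAlgebra.lift k
        (fun b => FreeAlgebra.ι k (s b)) (FreeAlgebra.ι k z))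
      rw [FreeAlgebra.lift_ι_apply, FreeAlgebra.lift_ι_apply]
    have hg1' : Function.Injective (FreeAlgebra.lift k (fun z => g (s z))) := by
      rw [hlift]
      exact hg1.comp (Rfa.vmapE k s).injective
    have hg2' : (FreeAlgebra.lift k (fun z => g (s z))).range = ⊤ := by
      rw [hlift, AlgHom.range_eq_top]
      exact ((AlgHom.range_eq_top _).1 hg2).comp (Rfa.vmapE k s).surjective
    have himl : (fun z => g (s z)) '' Set.range (Sum.inl : Fin 3 → Fin 3 ⊕ X₁)
        = g '' Set.range (Sum.inl : X₀ → X₀ ⊕ X₁) := by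
      ext f
      constructor
      · rintro ⟨_, ⟨i, rfl⟩, rfl⟩
        exact ⟨Sum.inl (e i), ⟨e i, rfl⟩, rfl⟩
      · rintro ⟨_, ⟨i, rfl⟩, rfl⟩
        refine ⟨Sum.inl (e.symm i), ⟨_, rfl⟩, ?_⟩
        show g (s (Sum.inl (e.symm i))) = g (Sum.inl i)
        rw [hsl, e.apply_symm_apply]
    have himr : ∀ x : X₁, (fun z => g (s z)) '' (Sum.inr '' Set.Iic x)
        = g '' (Sum.inr '' Set.Iic x) := by
      intro x
      ext f
      constructor
      · rintro ⟨_, ⟨y, hy, rfl⟩, rfl⟩
        exact ⟨_, ⟨y, hy, rfl⟩, rfl⟩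
      · rintro ⟨_, ⟨y, hy, rfl⟩, rfl⟩
        exact ⟨_, ⟨y, hy, rfl⟩, rfl⟩
    obtain ⟨m, hm, b, Y, hY⟩ := Rfa.threeF (fun z => g (s z)) hg1' hg2' π hπ j hj₁ hj₂
      (fun i hi => by
        have h2 := hj i hi
        have h3 : (fun z => g (s z)) '' (Sum.inl '' {i : Fin 3 | (i : ℕ) < j})
            = (fun i => g (Sum.inl (e i))) '' {i : Fin 3 | (i : ℕ) < j} := by
          rw [Set.image_image]
          rfl
        rw [h3]
        exact h2)
      (fun i => by
        rw [himl]
        exact h₀ (e i))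
      (fun x => by
        rw [Set.image_union, himl, himr, ← Set.image_union]
        exact h₁ x)
    exact ⟨m, hm, b, Y, hY⟩

end Pool.Agent.Results.MP_b7cb8e_al.TriangularRetract
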